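import Pool.Agent.H20.ER3.Lib

/-!
# MP_816b90_co: er3_modules row C5
-/

set_option autoImplicit false

namespace Pool.Agent.H12.ER3

open Pool.Agent.H48.ER Pool.Agent.H52.ER2 Pool.Agent.H66.ER2 Pool.Agent.H20.ER3

/-- (C5) a rung in `R`, two corners outside of `R` -/
theorem pf_C5 (hPZ : U_PZ) (hGE : U_GE) : U_C5 := by
  intro V H R n g hev hpi hodd hR
  by_contra hcon
  have h1 : ¬ InR R (g 1 0) := fun h => hcon (Or.inl h)
  have h2 : ¬ InR R (g 2 (n 2)) := fun h => hcon (Or.inr h)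
  have hp1 := hpi.pos 1
  have hp2 := hpi.pos 2
  have hpath := hPZ (V ⊕ Set V) (MG H R) n g 1 2 0 0 (n 2) hpi (by decide) (by decide)
    (by decide) (by omega) (by omega) le_rfl
  have hE := hGE V H R _ _ _ _ hev hpath (by omega) h1 h2 (by
    rintro w ((⟨k, _, hk, rfl⟩ | ⟨k, _, hk, rfl⟩) | ⟨k, hk1, hk2, rfl⟩)
    · have h0 : k = 0 := by omega
      rw [h0]
      exact Or.inl rfl
    · exact Or.inr (Or.inr (hR k hk))
    · have h0 : k = n 2 := by omega
      rw [h0]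
      exact Or.inr (Or.inl rfl))
  obtain ⟨a, ha⟩ := hodd 0
  obtain ⟨b, hb⟩ := hE
  omega

end Pool.Agent.H12.ER3
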