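import Pool.Agent.H20.ER3.Lib

/-!
# MP_816b90_co: er3_modules row L2
-/

set_option autoImplicit false

namespace Pool.Agent.H12.ER3

open Pool.Agent.H48.ER Pool.Agent.H52.ER2 Pool.Agent.H66.ER2 Pool.Agent.H20.ER3

/-- minimal separated odd prisms: permutation of the rungs -/
theorem mr_perm (hPP : U_PP) {V : Type} {H : SimpleGraph V} {R : Set V} {n : Fin 3 → ℕ}
    {g : Fin 3 → ℕ → V ⊕ Set V} (h : MR H R n g) (σ : Fin 3 → Fin 3)
    (hσ : Function.Injective σ) : MR H R (fun i => n (σ i)) (fun i => g (σ i)) := by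
  obtain ⟨h1, h2⟩ := (hPP (V ⊕ Set V) (MG H R) n g h.pi).1 σ hσ
  refine ⟨h1, fun i => h.odd (σ i), ?_, ?_⟩
  · rw [h2]
    exact h.sp
  · intro n' g' k1 k2 k3
    rw [h2]
    exact h.mn n' g' k1 k2 k3

/-- the vertices of a prism without roots are separated -/
theorem sp_inl {V : Type} {H : SimpleGraph V} {R : Set V} {n : Fin 3 → ℕ}
    {g : Fin 3 → ℕ → V} : Sp H R (vI n (fun i k => (Sum.inl (g i k) : V ⊕ Set V))) := by
  rintro F ⟨i, k, _, e⟩
  cases e

/-- (L2) a good pair of Operation C is a good pair -/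
theorem pf_L2 (hHM : U_HM) (hQM : U_QM) (hSE : U_SE) (hCA : U_CA) (hCB : U_CB) (hCC : U_CC)
    (hCD : U_CD) (hEB : U_EB) (hEC : U_EC) (hGB : U_GB) (hPA : U_PA) (hPP : U_PP)
    (hcc : Pool.Agent.H48.ER2.T_CC) : U_L2 := by
  intro V _ G R S p q hG hcn hev has hst hp hq hgd
  have hE : EvP G p q := hCB V G R p q hev hp hq hgd.1
  have hevS : EvS G S := hSE V G R S hG.noh hcn hev hst
  have hHS : HMs True G S := hHM V True G S hG.noh hevS (fun h => absurd trivial h)
  have hPS : PMs True G S := hQM V True G S hG.noh hG.nop hevS (fun h => absurd trivial h) hHS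
  have hevc : EvS (ctr G p q) R := hCC V G R p q hev hp hq hE.1 hE.2.1
  have hasc : AsS (ctr G p q) R := hCD V G R p q has hp hq hgd.1
  have hnop : NOP (OC (ctr G p q) R) := by
    rw [hCA V G R p q hp hq hE.1]
    exact hgd.2.nop
  refine ⟨hE, hcc V G p q hG hE ?_⟩
  intro a b n P hP hodd
  obtain ⟨g, hg, _⟩ := hPA V (ctr G p q) a b n P hP
  have hm : PI (MG (ctr G p q) R) n (fun i k => Sum.inl (g i k)) :=
    (hGB V (ctr G p q) R n).1 g hg
  obtain ⟨n', g', hmr⟩ := exists_mr hm hodd sp_inl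
  obtain ⟨i, hi⟩ := hEB V G R p q n' g' hG hev hE hp hq hevc hasc hnop hmr
  have hmr' := mr_perm hPP hmr (Equiv.swap 0 i) (Equiv.swap 0 i).injective
  refine hEC V G R S p q _ _ hG hev hE hst hPS hp hq hevc hasc hmr' ?_
  intro x hx
  have e : Equiv.swap (0 : Fin 3) i 0 = i := Equiv.swap_apply_left 0 i
  simp only [e] at hx ⊢
  exact hi x hx

end Pool.Agent.H12.ER3
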